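import Pool.Agent.Helper9.LS5.SheetR
import Pool.Agent.Helper54.LM.FINAL

/-!
Project LS5 (MP_9a3c31_nt), row REGS: the theorem on points.
-/

set_option autoImplicit false

open Filter Topology NumberField

namespace Pool.Agent.Helper47.LS5

open Pool.Agent.Helper42.LS Pool.Agent.Helper42.LK Pool.Agent.Helper54.LM Pool.Agent.Helper9.LS5

/-- coordinates of the combinations, the height matrix (as `FINAL_gram`, with the coordinates of
the points `P i`) -/
theorem REGS_gram (hGL : ST_LGL) (hCH : ST_LCH) {K : Type} [Field K] [NumberField K]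
    [DecidableEq K] {A B : K} (hD : dsc A B ≠ 0) {m : ℕ} (P : Fin m → (ECK A B).toAffine.Point)
    (hP : Ind P) : ∃ X Y : (Fin m → ℤ) → K, GLat (0 : K) A B X Y ∧
      (∀ i, X (Pi.single i 1) = xco (P i)) ∧
      ∃ G, IsReg P G ∧ ∀ k, k ≠ 0 → IsCanK (fun n : ℕ => X (n • k)) (qf G k) := by
  obtain ⟨X, Y, hL, hXY⟩ := hGL K A B m P hP
  obtain ⟨G₀, hs, hcan, hcanK, -⟩ := hCH K A B hD m X Y hL
  have hx : ∀ k : Fin m → ℤ, k ≠ 0 → ∀ n : ℕ,
      hxK (2 ^ n • ∑ i, k i • P i) = Height.logHeight₁ (X (2 ^ n • k)) := by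
    intro k hk n
    have hnk : 2 ^ n • k ≠ 0 := smul_ne_zero (by positivity) hk
    obtain ⟨h, hh⟩ := hXY (2 ^ n • k) hnk
    have h1 : (2 ^ n • ∑ i, k i • P i : (ECK A B).toAffine.Point) =
        ∑ i, (2 ^ n • k) i • P i := by
      rw [Finset.smul_sum]
      refine Finset.sum_congr rfl fun i _ => ?_
      rw [Pi.smul_apply, ← natCast_zsmul, smul_smul, nsmul_eq_mul]
    rw [h1, hh]
    rfl
  have hG₀ : IsReg P G₀ := by
    refine ⟨hs, fun k => ?_⟩
    by_cases hk : k = 0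
    · subst hk
      have h1 : ∀ n : ℕ, hxK (2 ^ n • ∑ i, (0 : Fin m → ℤ) i • P i) / (4 : ℝ) ^ n = 0 := by
        intro n
        have : (2 ^ n • ∑ i, (0 : Fin m → ℤ) i • P i : (ECK A B).toAffine.Point) = 0 := by
          simp
        rw [this]
        have h0 : hxK (0 : (ECK A B).toAffine.Point) = 0 := rfl
        rw [h0, zero_div]
      simp only [h1]
      simp
    · have h1 := hcan k hk
      refine h1.congr fun n => ?_
      rw [hx k hk n]
  refine ⟨X, Y, hL, fun i => ?_, G₀, hG₀, hcanK⟩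
  have hne : (Pi.single i 1 : Fin m → ℤ) ≠ 0 := by
    intro h
    have := congrFun h i
    simp at this
  obtain ⟨h, hh⟩ := hXY (Pi.single i 1) hne
  have h1 : ∑ j, (Pi.single i 1 : Fin m → ℤ) j • P j = P i := by
    rw [Finset.sum_eq_single i]
    · rw [Pi.single_eq_same, one_zsmul]
    · intro j _ hj
      rw [Pi.single_eq_of_ne hj, zero_zsmul]
    · intro hi
      exact absurd (Finset.mem_univ i) hi
  rw [h1] at hh
  rw [hh]
  rfl

/-- **REGS** -/
theorem REGS (hGL : ST_LGL) (hCH : ST_LCH) (hFINL : ST_FINL) (hDF : ST_KDF) : ST_REGS := by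
  intro K _ _ _ G t m M hG hm
  obtain ⟨c, hc, hF⟩ := hFINL K G t m M hG hm
  have hm0 : (0 : ℝ) < m := by exact_mod_cast hm
  refine ⟨min c (m * c ^ (1 / (m : ℝ))), lt_min hc (by positivity), ?_⟩
  intro A B hD P hP
  obtain ⟨X, Y, hL, hX, R, hR, hcan⟩ := REGS_gram hGL hCH hD P hP
  have hH : 0 ≤ HK A B := by
    unfold HK LD
    exact add_nonneg (finsum_nonneg fun v => ((hDF K A B hD).2.1 v).1)
      (Height.zero_le_logHeight₁ _)
  have hH1 : 0 < 1 + HK A B := by linarith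
  refine ⟨R, hR, fun h hh0 hh1 hRM hq1 hq2 => ?_⟩
  have hdet : c * (1 + HK A B) ^ m ≤ R.det := by
    refine hF A B hD X Y R hL hR.1 hcan h hh0 ?_ hRM hq1 fun i => ?_
    · exact hh1.trans (mul_le_mul_of_nonneg_right (min_le_left _ _) hH1.le)
    · rw [hX i]
      exact hq2 i
  have hpsd : R.PosSemidef := by
    refine LREG_psd hR.1 fun k => ?_
    refine ge_of_tendsto' (hR.2 k) fun n => div_nonneg ?_ (by positivity)
    rcases (2 ^ n • ∑ i, k i • P i : (ECK A B).toAffine.Point) with _ | ⟨x, y, h⟩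
    · exact le_rfl
    · exact Height.zero_le_logHeight₁ _
  refine ⟨(mul_le_mul_of_nonneg_right (min_le_left _ _) (by positivity)).trans hdet, ?_⟩
  intro S hS
  refine le_trans (mul_le_mul_of_nonneg_right (min_le_right _ _) hH1.le) ?_
  have h3 := FINAL_trace hm hS.posSemidef hpsd
  have h4 : (S.map (fun z : ℤ => (z : ℝ)) * R).trace = ∑ i, ∑ j, (S i j : ℝ) * R i j := by
    rw [Matrix.trace]
    refine Finset.sum_congr rfl fun i _ => ?_
    rw [Matrix.diag_apply, Matrix.mul_apply]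
    refine Finset.sum_congr rfl fun j _ => ?_
    rw [Matrix.map_apply]
    have h5 := congrFun (congrFun hR.1 i) j
    rw [Matrix.transpose_apply] at h5
    rw [h5]
  rw [h4] at h3
  refine le_trans ?_ h3
  have h5 := FINAL_int hS
  have h7 : 0 ≤ R.det := hpsd.det_nonneg
  have h6 : (c * (1 + HK A B) ^ m) ^ (1 / (m : ℝ)) ≤
      ((S.map (fun z : ℤ => (z : ℝ))).det * R.det) ^ (1 / (m : ℝ)) := by
    refine Real.rpow_le_rpow (by positivity) ?_ (by positivity)
    nlinarith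
  have h8 : (c * (1 + HK A B) ^ m) ^ (1 / (m : ℝ)) = c ^ (1 / (m : ℝ)) * (1 + HK A B) := by
    rw [Real.mul_rpow hc.le (pow_nonneg hH1.le m), ← Real.rpow_natCast (1 + HK A B) m,
      ← Real.rpow_mul hH1.le, mul_one_div_cancel hm0.ne', Real.rpow_one]
  calc (m : ℝ) * c ^ (1 / (m : ℝ)) * (1 + HK A B)
      = m * (c * (1 + HK A B) ^ m) ^ (1 / (m : ℝ)) := by rw [h8]; ring
    _ ≤ _ := mul_le_mul_of_nonneg_left h6 hm0.le

end Pool.Agent.Helper47.LS5
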