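import Pool.Agent.Helper9.LS5.SheetN
import Pool.Agent.Helper47.JN.RDX

/-!
Project LS5 (MP_9a3c31_nt), row ARI: the arithmetic statement on the pair `(J, Z)`.
-/

set_option autoImplicit false

namespace Pool.Agent.Helper47.LS5

open Filter Finset NumberField Pool.Agent.Helper71.JN Pool.Agent.Helper70.SUB
  Pool.Agent.Helper77.SUBK Pool.Agent.Helper70.SUBL Pool.Agent.Helper70.SUBW
  Pool.Agent.Helper9.LS5 Pool.Agent.Helper47.JN Pool.Agent.Helper53.SUBW

section places

variable {M : Type} [Field M] [NumberField M] {S : Finset ℕ} {V : FinitePlace M}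

theorem V_int {a : M} (ha : IsIntegral ℤ a) : V a ≤ 1 := by
  obtain ⟨b, hb⟩ : ∃ b : NumberField.RingOfIntegers M, (b : M) = a := ⟨⟨a, ha⟩, rfl⟩
  rw [← NumberField.FinitePlace.norm_embedding_eq, ← hb]
  exact NumberField.FinitePlace.norm_le_one M _ b

theorem V_Sm (hV : Aw S V) : ∀ n : ℕ, Sm S n → V (n : M) = 1 := by
  intro n
  induction n using Nat.strong_induction_on with
  | _ n ih =>
    intro hn
    by_cases h1 : n = 1
    · rw [h1, Nat.cast_one, map_one]
    · have hp := Nat.minFac_prime h1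
      obtain ⟨m, hm⟩ := Nat.minFac_dvd n
      have hm0 : m ≠ 0 := by
        rintro rfl
        rw [mul_zero] at hm
        exact hn.1 hm
      have hmn : m < n := by
        conv_rhs => rw [hm]
        exact lt_mul_of_one_lt_left (Nat.pos_of_ne_zero hm0) hp.one_lt
      have h2 := ih m hmn ⟨hm0, fun q hq hqm => hn.2 q hq (by rw [hm]; exact hqm.mul_left _)⟩
      have h3 := hV n.minFac (hn.2 _ hp (Nat.minFac_dvd n))
      have h4 : (n : M) = (n.minFac : M) * (m : M) := by
        rw [← Nat.cast_mul, ← hm]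
      rw [h4, map_mul, h3, h2, one_mul]

theorem V_SI (hV : Aw S V) {z : M} (hz : SI S z) : V z ≤ 1 := by
  obtain ⟨n, hn, hi⟩ := hz
  have := V_int (V := V) hi
  rwa [map_mul, V_Sm hV n hn, one_mul] at this

theorem V_SV (hV : Aw S V) {u : M} (hu : SV S u) : V u = 1 := by
  obtain ⟨h0, h1, h2⟩ := hu
  refine le_antisymm (V_SI hV h1) ?_
  have h3 := V_SI hV h2
  rw [map_inv₀] at h3
  have h4 : 0 < V u := lt_of_le_of_ne (apply_nonneg V u) (Ne.symm ((map_ne_zero V).2 h0))
  exact (inv_le_one₀ h4).1 h3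

end places

theorem ARI (hREP : ST_REP) (hFAC : ST_FAC) (hVAL : ST_VAL) (hSLS : ST_SLS) (hPOS : ST_POS)
    (hGCDC : ST_GCDC) (hOMG : ST_OMG) : ST_ARI := by
  classical
  intro M _ _ _ S P φ X a b a' b' hS hX ha hb ha' hb' hb0 hb'0
  have hX1 : ∀ᶠ j in (φ : Filter ℕ), 1 ≤ X j := hX.eventually_ge_atTop 1
  by_cases hA0 : ∀ᶠ j in (φ : Filter ℕ), a j ≠ 0
  swap
  · refine ⟨1, le_refl _, fun ε hε => ?_⟩
    have h1 : ∀ᶠ j in (φ : Filter ℕ), ¬ (a j ≠ 0) := Ultrafilter.eventually_not.2 hA0
    filter_upwards [h1, hX1] with j h2 h3 T hT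
    have h2' : a j = 0 := not_not.1 h2
    have hTe : T = ∅ := by
      refine Finset.eq_empty_of_forall_notMem fun V hV => ?_
      have := (hT V hV).2
      rw [h2', zero_div, map_zero, Real.log_zero] at this
      exact lt_irrefl _ this
    refine ⟨fun _ => 0, ?_⟩
    rw [hTe, Finset.sum_empty]
    exact mul_nonneg hε.le (Real.log_nonneg h3)
  by_cases hA0' : ∀ᶠ j in (φ : Filter ℕ), a' j ≠ 0
  swap
  · refine ⟨1, le_refl _, fun ε hε => ?_⟩
    have h1 : ∀ᶠ j in (φ : Filter ℕ), ¬ (a' j ≠ 0) := Ultrafilter.eventually_not.2 hA0'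
    filter_upwards [h1, hX1] with j h2 h3 T hT
    have h2' : a' j = 0 := not_not.1 h2
    refine ⟨fun _ => 6, ?_⟩
    have h4 : ∀ V ∈ T, |((1 : ℕ) : ℝ) * (12 * aV V (a j / b j) (a' j / b' j)) -
        ((6 : ℤ) : ℝ) * Real.log (V (a j / b j))| = 0 := by
      intro V _
      unfold aV
      rw [h2', zero_div, if_pos rfl, abs_eq_zero]
      push_cast
      ring
    rw [Finset.sum_eq_zero h4]
    exact mul_nonneg hε.le (Real.log_nonneg h3)
  -- the main case
  obtain ⟨hO1, -, hSl, -, -, -, -, -⟩ := hOMG M S P φ X hS hX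
  have hz0 : ∀ i : Fin 4, ∀ᶠ j in (φ : Filter ℕ), (![a, b, a', b'] : Fin 4 → ℕ → M) i j ≠ 0 := by
    intro i
    fin_cases i
    · exact hA0
    · exact hb0
    · exact hA0'
    · exact hb'0
  have hzS : ∀ i : Fin 4, SpM P φ X ((![a, b, a', b'] : Fin 4 → ℕ → M) i) := by
    intro i
    fin_cases i
    · exact ha
    · exact hb
    · exact ha'
    · exact hb'
  obtain ⟨r, w, D, hw, -, hD, hg⟩ := hREP M S P φ X 4 ![a, b, a', b'] hS hX hzS
  set z : Fin 4 → ℕ → M := ![a, b, a', b'] with hz
  choose g hgR hgz using hg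
  have hR : ∀ i, ∃ (m : Fin r → ℤ) (p : MvPolynomial (Fin r) (Sl P φ X)),
      g i = Pool.Agent.Helper71.JN.mon D.w m * D.ev p := fun i => R_form D (g i) (hgR i)
  choose m p hmp using hR
  have hp0 : ∀ i, p i ≠ 0 := by
    intro i h0
    have h1 : g i = 0 := by rw [hmp i, h0, map_zero, mul_zero]
    have h2 : gm φ (z i) = gm φ (fun _ => (0 : M)) := by
      rw [hgz i, h1]
      rfl
    have h3 := (gm_iff φ).1 h2
    obtain ⟨j, hj⟩ := ((hz0 i).and h3).exists
    exact hj.1 hj.2
  obtain ⟨s, q, e, c, hc, hq, hrel, hfac⟩ := hFAC (Sl P φ X) r 4 p hp0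
  have hG : ∀ k : Fin s, ∃ y : ℕ → M, OS P φ X y ∧ gm φ y = ((D.ev (q k) : Om P φ X) : UP M φ) :=
    fun k => (hO1 _).1 ((hD.hO _).1 (R_le_O D _ (ev_mem D _)))
  choose G hGO hGg using hG
  have hC : ∀ i : Fin 4, ∃ y : ℕ → M, Slw P φ X y ∧ gm φ y = ((c i : Om P φ X) : UP M φ) :=
    fun i => (hSl (c i : Om P φ X)).1 (c i).2
  choose C hCs hCg using hC
  -- the factorisation
  have hform : ∀ i, ∀ᶠ j in (φ : Filter ℕ),
      z i j = monM (fun k => w k j) (m i) * (C i j * ∏ k, G k j ^ e i k) := by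
    intro i
    rw [← gm_iff φ, hgz i, hmp i, hfac i]
    have h1 : gm φ (fun j => monM (fun k => w k j) (m i) * (C i j * ∏ k, G k j ^ e i k)) =
        gm φ (fun j => monM (fun k => w k j) (m i)) * (gm φ (C i) * ∏ k, gm φ (G k) ^ e i k) := by
      have h2 : gm φ (fun j => ∏ k, G k j ^ e i k) = ∏ k, gm φ (G k) ^ e i k := by
        rw [gm_prod φ Finset.univ fun k j => G k j ^ e i k]
        rfl
      rw [← h2]
      rfl
    rw [h1, ← coe_mon w D.w hD.hw (m i), hCg i]
    have h3 : D.ev (MvPolynomial.C (c i) * ∏ k, q k ^ e i k) =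
        (c i : Om P φ X) * ∏ k, D.ev (q k) ^ e i k := by
      rw [map_mul, map_prod]
      congr 1
      · unfold SSF.ev
        rw [MvPolynomial.aeval_C]
        rfl
      · exact Finset.prod_congr rfl fun k _ => map_pow _ _ _
    rw [h3]
    have h4 : (((∏ k, D.ev (q k) ^ e i k : Om P φ X)) : UP M φ) = ∏ k, gm φ (G k) ^ e i k := by
      have h5 := map_prod (Om P φ X).subtype (fun k => D.ev (q k) ^ e i k) Finset.univ
      have h6 : (((∏ k, D.ev (q k) ^ e i k : Om P φ X)) : UP M φ) =
          ∏ k, ((D.ev (q k) : Om P φ X) : UP M φ) ^ e i k := by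
        simpa only [map_pow, Subfield.subtype_apply] using h5
      rw [h6]
      exact Finset.prod_congr rfl fun k _ => by rw [hGg k]
    rw [← h4]
    rfl
  obtain ⟨D0, C0, hD0, hC0, hval⟩ := hVAL s (fun k => (e 0 k : ℤ) - e 1 k)
    (fun k => (e 2 k : ℤ) - e 3 k)
  refine ⟨D0, hD0, fun ε hε => ?_⟩
  set K0 : ℝ := 4 + s + s * s with hK0
  have hK0p : 0 < K0 := by positivity
  set ε' : ℝ := ε / (C0 * K0 + 1) with hε'
  have hden : 0 < C0 * K0 + 1 := by positivity
  have hε'p : 0 < ε' := div_pos hε hden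
  have e1 : ∀ᶠ j in (φ : Filter ℕ), ∀ i, z i j ≠ 0 := eventually_all.2 hz0
  have e2 : ∀ᶠ j in (φ : Filter ℕ), ∀ i,
      z i j = monM (fun k => w k j) (m i) * (C i j * ∏ k, G k j ^ e i k) := eventually_all.2 hform
  have e3 : ∀ᶠ j in (φ : Filter ℕ), ∀ k, SV S (w k j) := eventually_all.2 fun k => (hw k).1
  have e4 : ∀ᶠ j in (φ : Filter ℕ), ∀ i, ∀ T : Finset (FinitePlace M),
      ∑ V ∈ T, |Real.log (V (C i j))| ≤ ε' * Real.log (X j) :=
    eventually_all.2 fun i => hSLS M S P φ X (C i) hS hX (hCs i) ε' hε'p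
  have e5 : ∀ᶠ j in (φ : Filter ℕ), ∀ k, ∀ T : Finset (FinitePlace M), (∀ V ∈ T, Aw S V) →
      ∑ V ∈ T, max 0 (Real.log (V (G k j))) ≤ ε' * Real.log (X j) :=
    eventually_all.2 fun k => hPOS M S P φ X (G k) hS hX (hGO k) ε' hε'p
  have e6 : ∀ᶠ j in (φ : Filter ℕ), ∀ k k', k ≠ k' → ∀ T : Finset (FinitePlace M),
      (∀ V ∈ T, Aw S V) →
      ∑ V ∈ T, max 0 (min (-Real.log (V (G k j))) (-Real.log (V (G k' j)))) ≤
        ε' * Real.log (X j) := by
    refine eventually_all.2 fun k => eventually_all.2 fun k' => ?_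
    by_cases hkk : k = k'
    · exact Eventually.of_forall fun j h => absurd hkk h
    · filter_upwards [hGCDC M S P φ X r w D (q k) (q k') (G k) (G k') hS hX hw hD (hq k) (hq k')
        (hrel k k' hkk) (hGg k) (hGg k') ε' hε'p] with j hj _
      exact hj
  filter_upwards [e1, e2, e3, e4, e5, e6, hX1] with j f1 f2 f3 f4 f5 f6 f7 T hT
  have hlog : 0 ≤ Real.log (X j) := Real.log_nonneg f7
  -- bounds at one place
  set E : FinitePlace M → ℝ := fun V => ∑ i, |Real.log (V (C i j))| +
    ∑ k, max 0 (Real.log (V (G k j))) +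
    ∑ k, ∑ k', (if k = k' then 0 else max 0 (min (-Real.log (V (G k j))) (-Real.log (V (G k' j)))))
    with hE
  have hCG : ∀ i, C i j ≠ 0 ∧ ∀ k, e i k ≠ 0 → G k j ≠ 0 := by
    intro i
    have h1 := f1 i
    rw [f2 i] at h1
    have h2 := (mul_ne_zero_iff.1 h1).2
    have h3 := mul_ne_zero_iff.1 h2
    refine ⟨h3.1, fun k hk => ?_⟩
    have h4 := Finset.prod_ne_zero_iff.1 h3.2 k (Finset.mem_univ k)
    exact fun h5 => h4 (by rw [h5, zero_pow hk])
  have hlogz : ∀ V ∈ T, ∀ i, Real.log (V (z i j)) =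
      Real.log (V (C i j)) + ∑ k, (e i k : ℝ) * Real.log (V (G k j)) := by
    intro V hV i
    have hVS := (hT V hV).1
    have h1 : V (monM (fun k => w k j) (m i)) = 1 := by
      unfold monM
      rw [map_prod]
      refine Finset.prod_eq_one fun k _ => ?_
      rw [map_zpow₀, V_SV hVS (f3 k), one_zpow]
    rw [f2 i, map_mul, h1, one_mul, map_mul, map_prod, Real.log_mul, Real.log_prod]
    · congr 1
      exact Finset.sum_congr rfl fun k _ => by rw [map_pow, Real.log_pow]
    · intro k _
      rw [map_pow]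
      by_cases hk : e i k = 0
      · rw [hk, pow_zero]; exact one_ne_zero
      · exact pow_ne_zero _ ((map_ne_zero V).2 ((hCG i).2 k hk))
    · exact (map_ne_zero V).2 (hCG i).1
    · refine Finset.prod_ne_zero_iff.2 fun k _ => ?_
      rw [map_pow]
      by_cases hk : e i k = 0
      · rw [hk, pow_zero]; exact one_ne_zero
      · exact pow_ne_zero _ ((map_ne_zero V).2 ((hCG i).2 k hk))
  have hE0 : ∀ V, 0 ≤ E V := by
    intro V
    rw [hE]
    refine add_nonneg (add_nonneg (Finset.sum_nonneg fun _ _ => abs_nonneg _)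
      (Finset.sum_nonneg fun _ _ => le_max_left _ _)) (Finset.sum_nonneg fun k _ =>
        Finset.sum_nonneg fun k' _ => ?_)
    split_ifs
    · exact le_refl _
    · exact le_max_left _ _
  have hsing : ∀ V, ∑ i, |Real.log (V (C i j))| ≤ E V ∧
      (∀ k, max 0 (Real.log (V (G k j))) ≤ E V) ∧
      (∀ k k', k ≠ k' → max 0 (min (-Real.log (V (G k j))) (-Real.log (V (G k' j)))) ≤ E V) := by
    intro V
    have n1 : 0 ≤ ∑ i, |Real.log (V (C i j))| := Finset.sum_nonneg fun _ _ => abs_nonneg _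
    have n2 : 0 ≤ ∑ k, max 0 (Real.log (V (G k j))) :=
      Finset.sum_nonneg fun _ _ => le_max_left _ _
    have n4 : ∀ k k', (0 : ℝ) ≤ (if k = k' then 0 else
        max 0 (min (-Real.log (V (G k j))) (-Real.log (V (G k' j))))) := by
      intro k k'
      split_ifs
      · exact le_refl _
      · exact le_max_left _ _
    have n3 : 0 ≤ ∑ k, ∑ k', (if k = k' then 0 else
        max 0 (min (-Real.log (V (G k j))) (-Real.log (V (G k' j))))) :=
      Finset.sum_nonneg fun k _ => Finset.sum_nonneg fun k' _ => n4 k k'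
    refine ⟨?_, fun k => ?_, fun k k' hkk => ?_⟩
    · simp only [hE]
      linarith
    · have h1 := Finset.single_le_sum (f := fun k => max 0 (Real.log (V (G k j))))
        (fun k _ => le_max_left _ _) (Finset.mem_univ k)
      simp only [hE]
      linarith
    · have h1 := Finset.single_le_sum (f := fun k => ∑ k', (if k = k' then 0 else
        max 0 (min (-Real.log (V (G k j))) (-Real.log (V (G k' j))))))
        (fun k _ => Finset.sum_nonneg fun k' _ => n4 k k') (Finset.mem_univ k)
      have h2 := Finset.single_le_sum (f := fun k' => (if k = k' then 0 else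
        max 0 (min (-Real.log (V (G k j))) (-Real.log (V (G k' j))))))
        (fun k' _ => n4 k k') (Finset.mem_univ k')
      simp only [if_neg hkk] at h2
      simp only [hE]
      linarith
  have habs : ∀ V (i i' : Fin 4), i ≠ i' →
      |(-Real.log (V (C i j)) + Real.log (V (C i' j)))| ≤ E V := by
    intro V i i' hii
    refine le_trans ?_ (hsing V).1
    have h1 : |(-Real.log (V (C i j)) + Real.log (V (C i' j)))| ≤
        |Real.log (V (C i j))| + |Real.log (V (C i' j))| := by
      refine (abs_add_le _ _).trans ?_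
      rw [abs_neg]
    refine h1.trans ?_
    have h2 := Finset.sum_le_sum_of_subset_of_nonneg
      (f := fun i => |Real.log (V (C i j))|) (Finset.subset_univ ({i, i'} : Finset (Fin 4)))
      (fun i _ _ => abs_nonneg _)
    rwa [Finset.sum_pair hii] at h2
  have hone : ∀ V ∈ T, ∃ mm : ℤ, |D0 * (12 * aV V (a j / b j) (a' j / b' j)) -
      mm * Real.log (V (a j / b j))| ≤ C0 * E V := by
    intro V hV
    have hz0' : z 0 j = a j := rfl
    have hz1' : z 1 j = b j := rfl
    have hz2' : z 2 j = a' j := rfl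
    have hz3' : z 3 j = b' j := rfl
    have l0 := hlogz V hV 0
    have l1 := hlogz V hV 1
    have l2 := hlogz V hV 2
    have l3 := hlogz V hV 3
    have na : V (a j) ≠ 0 := (map_ne_zero V).2 (f1 0)
    have nb : V (b j) ≠ 0 := (map_ne_zero V).2 (f1 1)
    have na' : V (a' j) ≠ 0 := (map_ne_zero V).2 (f1 2)
    have nb' : V (b' j) ≠ 0 := (map_ne_zero V).2 (f1 3)
    rw [hz0'] at l0
    rw [hz1'] at l1
    rw [hz2'] at l2
    rw [hz3'] at l3
    have hJ : Real.log (V (a j / b j)) = Real.log (V (a j)) - Real.log (V (b j)) := by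
      rw [map_div₀, Real.log_div na nb]
    have hZ : Real.log (V (a' j / b' j)) = Real.log (V (a' j)) - Real.log (V (b' j)) := by
      rw [map_div₀, Real.log_div na' nb']
    have hv := hval (fun k => -Real.log (V (G k j)))
      (-Real.log (V (C 0 j)) + Real.log (V (C 1 j)))
      (-Real.log (V (C 2 j)) + Real.log (V (C 3 j))) (E V) (Real.log (V (a j / b j)))
      (-Real.log (V (a' j / b' j))) ?_ ?_ (hT V hV).2 (hE0 V) (habs V 0 1 (by decide))
      (habs V 2 3 (by decide)) ?_ ?_
    · obtain ⟨mm, hmm⟩ := hv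
      refine ⟨mm, ?_⟩
      have hne : a' j / b' j ≠ 0 := div_ne_zero (f1 2) (f1 3)
      unfold aV
      rw [if_neg hne]
      exact hmm
    · rw [hJ, l0, l1]
      simp only [Int.cast_sub, Int.cast_natCast, sub_mul, mul_neg, Finset.sum_sub_distrib,
        Finset.sum_neg_distrib]
      ring
    · rw [hZ, l2, l3]
      simp only [Int.cast_sub, Int.cast_natCast, sub_mul, mul_neg, Finset.sum_sub_distrib,
        Finset.sum_neg_distrib]
      ring
    · intro k
      have := ((le_max_right (0 : ℝ) (Real.log (V (G k j)))).trans ((hsing V).2.1 k))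
      linarith
    · intro k k' hkk
      exact (le_max_right _ _).trans ((hsing V).2.2 k k' hkk)
  choose! mm hmm using hone
  refine ⟨mm, ?_⟩
  have hTS : ∀ V ∈ T, Aw S V := fun V hV => (hT V hV).1
  calc ∑ V ∈ T, |D0 * (12 * aV V (a j / b j) (a' j / b' j)) -
      mm V * Real.log (V (a j / b j))| ≤ ∑ V ∈ T, C0 * E V := Finset.sum_le_sum hmm
    _ = C0 * ∑ V ∈ T, E V := by rw [Finset.mul_sum]
    _ ≤ C0 * (K0 * (ε' * Real.log (X j))) := by
        refine mul_le_mul_of_nonneg_left ?_ hC0
        simp only [hE]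
        rw [Finset.sum_add_distrib, Finset.sum_add_distrib]
        have s1 : ∑ V ∈ T, ∑ i, |Real.log (V (C i j))| ≤ 4 * (ε' * Real.log (X j)) := by
          rw [Finset.sum_comm]
          refine (Finset.sum_le_card_nsmul _ _ _ fun i _ => f4 i T).trans ?_
          rw [Finset.card_univ, Fintype.card_fin, nsmul_eq_mul]
          push_cast
          exact le_refl _
        have s2 : ∑ V ∈ T, ∑ k, max 0 (Real.log (V (G k j))) ≤ s * (ε' * Real.log (X j)) := by
          rw [Finset.sum_comm]
          refine (Finset.sum_le_card_nsmul _ _ _ fun k _ => f5 k T hTS).trans ?_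
          rw [Finset.card_univ, Fintype.card_fin, nsmul_eq_mul]
        have s3 : ∑ V ∈ T, ∑ k, ∑ k', (if k = k' then 0 else
            max 0 (min (-Real.log (V (G k j))) (-Real.log (V (G k' j))))) ≤
            (s * s) * (ε' * Real.log (X j)) := by
          rw [Finset.sum_comm]
          have s4 : ∀ k : Fin s, ∑ V ∈ T, ∑ k', (if k = k' then 0 else
              max 0 (min (-Real.log (V (G k j))) (-Real.log (V (G k' j))))) ≤
              s * (ε' * Real.log (X j)) := by
            intro k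
            rw [Finset.sum_comm]
            refine (Finset.sum_le_card_nsmul _ _ _ fun k' _ => ?_).trans
              (b := Finset.univ.card • (ε' * Real.log (X j))) ?_
            · by_cases hkk : k = k'
              · simp only [if_pos hkk, Finset.sum_const_zero]
                exact mul_nonneg hε'p.le hlog
              · simp only [if_neg hkk]
                exact f6 k k' hkk T hTS
            · rw [Finset.card_univ, Fintype.card_fin, nsmul_eq_mul]
          refine (Finset.sum_le_card_nsmul _ _ _ fun k _ => s4 k).trans ?_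
          rw [Finset.card_univ, Fintype.card_fin, nsmul_eq_mul]
          rw [mul_assoc]
        rw [hK0]
        linarith
    _ ≤ ε * Real.log (X j) := by
        have h1 : C0 * (K0 * (ε' * Real.log (X j))) = (C0 * K0 * ε') * Real.log (X j) := by ring
        rw [h1]
        refine mul_le_mul_of_nonneg_right ?_ hlog
        rw [hε', mul_div_assoc', div_le_iff₀ hden]
        nlinarith [mul_nonneg hC0 hK0p.le]

end Pool.Agent.Helper47.LS5
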