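import Pool.Agent.Helper9.LS5.SheetC

/-!
Project LS5 (MP_9a3c31_nt), sheet C: `SGN` (pigeonhole for sign patterns) and `LSRM` (second moment
with equal atoms merged).
-/

set_option autoImplicit false

open Filter Topology NumberField

namespace Pool.Agent.Helper9.LS5

open Pool.Agent.Helper42.LS Pool.Agent.Helper42.LK Pool.Agent.Helper54.LM

/-- `prs` for the relation `h v = h v'` as a sum of squares over the values of `h` -/
theorem prs_img {ι γ : Type} [DecidableEq γ] (V : Finset ι) (w : ι → ℝ) (h : ι → γ) :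
    prs V w (fun v v' => h v = h v') =
      ∑ x ∈ V.image h, (∑ v ∈ V with h v = x, w v) ^ 2 := by
  have e1 : prs V w (fun v v' => h v = h v') =
      ∑ v ∈ V, w v * ∑ v' ∈ V with h v' = h v, w v' := by
    unfold prs
    refine Finset.sum_congr rfl fun v _ => ?_
    rw [Finset.sum_filter, Finset.mul_sum]
    refine Finset.sum_congr rfl fun v' _ => ?_
    by_cases h1 : h v = h v'
    · rw [if_pos h1, if_pos h1.symm]
    · rw [if_neg h1, if_neg (Ne.symm h1), mul_zero]
  rw [e1, ← Finset.sum_fiberwise_of_maps_to (s := V) (t := V.image h) (g := h)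
    (fun v hv => Finset.mem_image_of_mem h hv)]
  refine Finset.sum_congr rfl fun x _ => ?_
  rw [sq, Finset.sum_mul]
  refine Finset.sum_congr rfl fun v hv => ?_
  rw [(Finset.mem_filter.1 hv).2]

/-- (SGN) pigeonhole -/
theorem SGN : ST_SGN := by
  classical
  intro ι α β _ V w f σ hw
  rw [prs_img V w f]
  have e2 : prs V w (fun v v' => f v = f v' ∧ σ v = σ v') =
      prs V w (fun v v' => (f v, σ v) = (f v', σ v')) := by
    unfold prs
    refine Finset.sum_congr rfl fun v _ => Finset.sum_congr rfl fun v' _ => ?_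
    by_cases h1 : f v = f v' ∧ σ v = σ v'
    · rw [if_pos h1, if_pos (Prod.ext h1.1 h1.2)]
    · rw [if_neg h1, if_neg (fun h => h1 (Prod.mk.inj h))]
  rw [e2, prs_img V w (fun v => (f v, σ v))]
  have e3 : ∑ x ∈ V.image (fun v => (f v, σ v)),
      (∑ v ∈ V with (f v, σ v) = x, w v) ^ 2 =
      ∑ x ∈ V.image f ×ˢ (Finset.univ : Finset β), (∑ v ∈ V with (f v, σ v) = x, w v) ^ 2 := by
    refine Finset.sum_subset ?_ ?_
    · intro x hx
      obtain ⟨v, hv, rfl⟩ := Finset.mem_image.1 hx
      exact Finset.mem_product.2 ⟨Finset.mem_image_of_mem f hv, Finset.mem_univ _⟩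
    · intro x _ hx
      rw [Finset.filter_false_of_mem, Finset.sum_empty]
      · norm_num
      · intro v hv h1
        exact hx (Finset.mem_image.2 ⟨v, hv, h1⟩)
  rw [e3, Finset.sum_product, Finset.mul_sum]
  refine Finset.sum_le_sum fun c _ => ?_
  have e4 : ∑ v ∈ V with f v = c, w v = ∑ b : β, ∑ v ∈ V with (f v, σ v) = (c, b), w v := by
    rw [← Finset.sum_fiberwise (s := V.filter fun v => f v = c) (g := σ)]
    refine Finset.sum_congr rfl fun b _ => ?_
    rw [Finset.filter_filter]
    refine Finset.sum_congr ?_ fun _ _ => rfl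
    ext v
    simp only [Finset.mem_filter, Prod.mk.injEq]
  rw [e4]
  have := sq_sum_le_card_mul_sum_sq (s := (Finset.univ : Finset β))
    (f := fun b => ∑ v ∈ V with (f v, σ v) = (c, b), w v)
  rw [Finset.card_univ] at this
  exact this

/-- enumeration of a finite set of vectors -/
theorem exists_enum {γ : Type} [Inhabited γ] (s : Finset γ) : ∃ e : ℕ → γ, ∀ g : γ → ℝ,
    ∑ n ∈ Finset.range s.card, g (e n) = ∑ x ∈ s, g x := by
  classical
  refine ⟨fun n => if h : n < s.card then (s.equivFin.symm ⟨n, h⟩ : γ) else default, fun g => ?_⟩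
  rw [Finset.sum_range]
  have e1 : ∀ i : Fin s.card, g (if h : (i : ℕ) < s.card then
      (s.equivFin.symm ⟨i, h⟩ : γ) else default) = g (s.equivFin.symm i : γ) := by
    intro i
    rw [dif_pos i.2]
  rw [Finset.sum_congr rfl fun i _ => e1 i,
    Equiv.sum_comp s.equivFin.symm (fun x : s => g (x : γ))]
  exact Finset.sum_coe_sort s g

/-- `B2` of the pairing depends on the fractional parts only -/
theorem B2_fract {m : ℕ} (k : Fin m → ℤ) (t : Fin m → ℝ) :
    B2 (pr k (fun i => Int.fract (t i))) = B2 (pr k t) := by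
  have e1 : pr k t = pr k (fun i => Int.fract (t i)) + ((∑ i, k i * ⌊t i⌋ : ℤ) : ℝ) := by
    unfold pr
    push_cast
    rw [← Finset.sum_add_distrib]
    refine Finset.sum_congr rfl fun i _ => ?_
    rw [← mul_add, Int.fract_add_floor]
  rw [e1]
  unfold B2
  rw [Int.fract_add_intCast]

/-- (LSRM) second moment, equal atoms merged -/
theorem LSRM (h : ST_LSR) : ST_LSRM := by
  classical
  obtain ⟨c, C, hc, hC, H⟩ := h
  refine ⟨c, C, hc, hC, ?_⟩
  intro m S ι V w t ρ hw hW hρ hp hCS
  obtain ⟨f, hf⟩ : ∃ f : ι → Fin m → ℝ, f = fun v i => Int.fract (t v i) := ⟨_, rfl⟩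
  have e0 : prs V w (fun v v' => ∀ i, ∃ n : ℤ, t v i = t v' i + n) =
      prs V w (fun v v' => f v = f v') := by
    unfold prs
    refine Finset.sum_congr rfl fun v _ => Finset.sum_congr rfl fun v' _ => ?_
    have e : (∀ i, ∃ n : ℤ, t v i = t v' i + n) ↔ f v = f v' := by
      constructor
      · intro h1
        funext i
        obtain ⟨n, hn⟩ := h1 i
        rw [hf]
        simp only
        rw [hn, Int.fract_add_intCast]
      · intro h1 i
        have h2 : Int.fract (t v i) = Int.fract (t v' i) := by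
          have := congrFun h1 i
          rw [hf] at this
          exact this
        refine ⟨⌊t v i⌋ - ⌊t v' i⌋, ?_⟩
        push_cast
        have h3 := Int.fract_add_floor (t v i)
        have h4 := Int.fract_add_floor (t v' i)
        linarith
    by_cases h1 : ∀ i, ∃ n : ℤ, t v i = t v' i + n
    · rw [if_pos h1, if_pos (e.1 h1)]
    · rw [if_neg h1, if_neg (fun h2 => h1 (e.2 h2))]
  rw [e0, prs_img V w f] at hp
  obtain ⟨en, hen⟩ := exists_enum (V.image f)
  obtain ⟨om, hom⟩ : ∃ om : (Fin m → ℝ) → ℝ, om = fun x => ∑ v ∈ V with f v = x, w v := ⟨_, rfl⟩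
  have hsum : ∀ g : (Fin m → ℝ) → ℝ, ∑ n ∈ Finset.range (V.image f).card, om (en n) * g (en n) =
      ∑ v ∈ V, w v * g (f v) := by
    intro g
    rw [hen fun x => om x * g x, ← Finset.sum_fiberwise_of_maps_to (s := V) (t := V.image f)
      (g := f) (fun v hv => Finset.mem_image_of_mem f hv)]
    refine Finset.sum_congr rfl fun x _ => ?_
    rw [hom]
    simp only
    rw [Finset.sum_mul]
    refine Finset.sum_congr rfl fun v hv => ?_
    rw [(Finset.mem_filter.1 hv).2]
  have h1 : ∑ n ∈ Finset.range (V.image f).card, om (en n) = ∑ v ∈ V, w v := by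
    have := hsum fun _ => 1
    simpa using this
  have h2 : ∑ n ∈ Finset.range (V.image f).card, om (en n) ^ 2 =
      ∑ x ∈ V.image f, (∑ v ∈ V with f v = x, w v) ^ 2 := by
    rw [hen fun x => om x ^ 2, hom]
  obtain ⟨a₁, ha₁, a₂, ha₂, b₁, hb₁, b₂, hb₂, hne, hle⟩ := H m S
    (Finset.range (V.image f).card) (fun n => om (en n)) en ρ
    (fun n _ => by
      rw [hom]
      exact Finset.sum_nonneg fun v hv => hw v (Finset.mem_filter.1 hv).1)
    (by rw [h1]; exact hW) hρ (by rw [h1, h2]; exact hp) hCS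
  refine ⟨a₁, ha₁, a₂, ha₂, b₁, hb₁, b₂, hb₂, hne, ?_⟩
  rw [h1, hsum fun x => B2 (pr (a₁ + a₂ - b₁ - b₂) x)] at hle
  refine hle.trans (le_of_eq (Finset.sum_congr rfl fun v _ => ?_))
  rw [hf]
  simp only
  rw [B2_fract]

end Pool.Agent.Helper9.LS5
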