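import Pool.Agent.Helper9.LS5.SheetN

/-!
Project LS5 (MP_9a3c31_nt), row REP: finitely many elements `SpM` in one structure `D`.
-/

set_option autoImplicit false

namespace Pool.Agent.Helper47.LS5

open Filter Finset Pool.Agent.Helper71.JN Pool.Agent.Helper70.SUB Pool.Agent.Helper77.SUBK
  Pool.Agent.Helper70.SUBL Pool.Agent.Helper70.SUBW Pool.Agent.Helper9.LS5

theorem REP (hMONG : ST_MONG) (hSSFX : ST_SSFX) (hRDX : ST_RDX) : ST_REP := by
  intro M _ _ _ S P φ X n z hS hX hz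
  choose t c u hc hu hs using hz
  obtain ⟨r, w, hw, hI, hm, -⟩ := hMONG M S P φ X (Σ i : Fin n, Fin (t i))
    (fun p => u p.1 p.2) hS hX (fun p => hu p.1 p.2)
  obtain ⟨D, hD⟩ := hSSFX M S P φ X r w hS hX hw hI
  refine ⟨r, w, D, hw, hI, hD, fun i => ?_⟩
  refine (hRDX M S P φ X r w D hS hX hw hD).2 (t i) (c i) (u i) (z i) (hc i) (fun k => ?_) (hs i)
  obtain ⟨s, m, hsl, he⟩ := hm ⟨i, k⟩ AlgEquiv.refl
  exact ⟨s, m, hsl, he⟩

end Pool.Agent.Helper47.LS5
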